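import Pool.Agent.Lib.MP_d0f9e0_co.F7.Fad

/-!
# `exists_SS`

The Faddeev normalised double sine function `fad w1 w2` and the interface `SS η`.
-/

set_option autoImplicit false

open MeasureTheory Filter Topology Set
open Pool.MP_d0f9e0_co.CS (ee)

namespace Pool.Agent.F7

open Pool.Agent.Lib.MP_d0f9e0_co.AN (SS)

/-- The Faddeev normalised double sine function. -/
noncomputable def fad (w1 w2 : ℝ) (z : ℂ) : ℂ :=
  Complex.exp (-(Phi w1 w2 (Real.pi / (w1 + w2)) z))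

theorem ok_left {w1 w2 : ℝ} (h1 : 0 < w1) (h2 : 0 < w2) : Ok w1 (Real.pi / (w1 + w2)) := by
  have hp := Real.pi_pos
  refine ⟨h1, by positivity, ?_⟩
  rw [mul_div_assoc', div_lt_iff₀ (by linarith)]
  nlinarith [mul_pos hp h1, mul_pos hp h2]

theorem ok_right {w1 w2 : ℝ} (h1 : 0 < w1) (h2 : 0 < w2) : Ok w2 (Real.pi / (w1 + w2)) := by
  rw [add_comm]; exact ok_left h2 h1

section
variable {w1 w2 : ℝ}

/-- The value of `fad` computed on any admissible line. -/
theorem fad_eq {δ : ℝ} (h1 : Ok w1 δ) (h2 : Ok w2 δ) {z : ℂ} (h0 : 0 < z.re)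
    (h3 : z.re < w1 + w2) : fad w1 w2 z = Complex.exp (-(Phi w1 w2 δ z)) := by
  unfold fad
  rw [Phi_shift (ok_left h1.w_pos h2.w_pos) h1 (ok_right h1.w_pos h2.w_pos) h2 h0 h3]

theorem fad_ne (w1 w2 : ℝ) (z : ℂ) : fad w1 w2 z ≠ 0 := Complex.exp_ne_zero _

theorem fad_comm (w1 w2 : ℝ) (z : ℂ) : fad w1 w2 z = fad w2 w1 z := by
  unfold fad; rw [Phi_comm, add_comm w1 w2]

theorem differentiableAt_fad (h1 : 0 < w1) (h2 : 0 < w2) {z : ℂ} (h0 : 0 < z.re)
    (h3 : z.re < w1 + w2) : DifferentiableAt ℂ (fad w1 w2) z := by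
  have := (hasDerivAt_Phi (ok_left h1 h2) (ok_right h1 h2) h0 h3).differentiableAt
  exact this.neg.cexp

/-- Shift by the first period. -/
theorem fad_add (h1 : 0 < w1) (h2 : 0 < w2) {z : ℂ} (h0 : 0 < z.re) (h3 : z.re < w2) :
    fad w1 w2 (z + w1) = (1 - ee (z / w2)) * fad w1 w2 z := by
  unfold fad
  rw [Phi_add (ok_left h1 h2) (ok_right h1 h2) h0 h3, neg_add, Complex.exp_add,
    exp_neg_Lam (ok_right h1 h2) h0 h3]
  ring

/-- Shift by the second period. -/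
theorem fad_add' (h1 : 0 < w1) (h2 : 0 < w2) {z : ℂ} (h0 : 0 < z.re) (h3 : z.re < w1) :
    fad w1 w2 (z + w2) = (1 - ee (z / w1)) * fad w1 w2 z := by
  rw [fad_comm w1 w2, fad_comm w1 w2, fad_add h2 h1 h0 h3]

/-- Cone splitting. -/
theorem fad_split (h1 : 0 < w1) (h2 : 0 < w2) {z : ℂ} (h0 : 0 < z.re) (h3 : z.re < w1 + w2) :
    fad w1 w2 z = fad w1 (w1 + w2) z * fad (w1 + w2) w2 (z + w2) := by
  have hp := Real.pi_pos
  have hs : 0 < w1 + w2 := by linarith
  have o : Ok (w1 + w2) (Real.pi / (w1 + w2)) := by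
    refine ⟨hs, by positivity, ?_⟩
    rw [mul_div_cancel₀ _ hs.ne']; linarith
  have o1 := ok_left h1 h2
  have o2 := ok_right h1 h2
  rw [fad_eq o1 o2 h0 h3, fad_eq o1 o h0 (by linarith),
    fad_eq o o2 (by simp; linarith) (by simp; linarith), ← Complex.exp_add]
  congr 1
  rw [Phi_split o1 o2 o h0 h3]
  ring

/-- Refinement. -/
theorem fad_refine (h1 : 0 < w1) (h2 : 0 < w2) {n : ℕ} (hn : n ≠ 0) {z : ℂ} (h0 : 0 < z.re)
    (h3 : z.re < w1 + w2) :
    fad w1 w2 z = ∏ k ∈ Finset.range n, fad (n * w1) w2 (z + k * w1) := by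
  have hn0 : (0 : ℝ) < n := by exact_mod_cast Nat.pos_of_ne_zero hn
  have hn1 : (1 : ℝ) ≤ n := by exact_mod_cast Nat.one_le_iff_ne_zero.mpr hn
  have hnw : 0 < n * w1 := by positivity
  have o := ok_left hnw h2
  have o2 := ok_right hnw h2
  have o1 : Ok w1 (Real.pi / (n * w1 + w2)) := o.of_le h1 o.d_pos (by nlinarith) le_rfl
  rw [fad_eq o1 o2 h0 h3, Phi_refine o1 o2 n o h0 h3, ← Finset.sum_neg_distrib, Complex.exp_sum]
  rfl

/-- Homogeneity. -/
theorem fad_homog {c : ℝ} (hc : 0 < c) (h1 : 0 < w1) (h2 : 0 < w2) (z : ℂ) :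
    fad (c * w1) (c * w2) (c * z) = fad w1 w2 z := by
  unfold fad
  rw [Phi_homog hc]
  congr 3
  have : w1 + w2 ≠ 0 := by linarith
  field_simp

/-- The reflection formula. -/
theorem Phi_refl {δ : ℝ} (h1 : Ok w1 δ) (h2 : Ok w2 δ) (hirr : Irrational (w2 / w1))
    {z : ℂ} (h0 : 0 < z.re) (h3 : z.re < w1 + w2) :
    Phi w1 w2 δ z + Phi w1 w2 δ (w1 + w2 - z) = -(Real.pi * Complex.I * BB w1 w2 z) := by
  have hw1 := h1.w_pos
  have hw2 := h2.w_pos
  have o11 : Ok (2 * w1) (δ / 2) := ⟨by linarith, by linarith [h1.d_pos], by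
    have := h1.lt; linarith⟩
  have o22 : Ok (2 * w2) (δ / 2) := ⟨by linarith, by linarith [h1.d_pos], by
    have := h2.lt; linarith⟩
  have o1 : Ok w1 (δ / 2) := o11.of_le hw1 o11.d_pos (by linarith) le_rfl
  have o2 : Ok w2 (δ / 2) := o22.of_le hw2 o11.d_pos (by linarith) le_rfl
  have g0 : 0 < ((w1 : ℂ) + w2 - z).re := by rw [re_refl]; linarith
  have g1 : ((w1 : ℂ) + w2 - z).re < w1 + w2 := by rw [re_refl]; linarith
  have := Phi_refl_small o11 o22 hirr h0 h3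
  unfold Dd at this
  rwa [Phi_shift o1 h1 o2 h2 h0 h3, Phi_shift o1 h1 o2 h2 g0 g1] at this

theorem fad_refl (h1 : 0 < w1) (h2 : 0 < w2) (hirr : Irrational (w2 / w1))
    {z : ℂ} (h0 : 0 < z.re) (h3 : z.re < w1 + w2) :
    fad w1 w2 z * fad w1 w2 (w1 + w2 - z) = Complex.exp (Real.pi * Complex.I * BB w1 w2 z) := by
  unfold fad
  rw [← Complex.exp_add]
  congr 1
  linear_combination (-1 : ℂ) * Phi_refl (ok_left h1 h2) (ok_right h1 h2) hirr h0 h3

theorem BB_ofReal (w1 w2 x : ℝ) : BB w1 w2 (x : ℂ) =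
    (((x ^ 2 - (w1 + w2) * x + (w1 ^ 2 + w2 ^ 2 + 3 * w1 * w2) / 6) / (w1 * w2) : ℝ) : ℂ) := by
  unfold BB; push_cast; ring

/-- The phase on the real line. -/
theorem fad_real (h1 : 0 < w1) (h2 : 0 < w2) (hirr : Irrational (w2 / w1))
    {x : ℝ} (h0 : 0 < x) (h3 : x < w1 + w2) :
    fad w1 w2 (x : ℂ) = ‖fad w1 w2 (x : ℂ)‖ * Complex.exp (Real.pi * Complex.I * BB w1 w2 x / 2) := by
  have o1 := ok_left h1 h2
  have o2 := ok_right h1 h2
  have hr := Phi_refl o1 o2 hirr (z := (x : ℂ)) (by simpa using h0) (by simpa using h3)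
  have hc := conj_Phi w1 w2 (Real.pi / (w1 + w2)) (x : ℂ) o1 o2
  rw [Complex.conj_ofReal] at hc
  set P := Phi w1 w2 (Real.pi / (w1 + w2)) (x : ℂ) with hP
  -- P - conj P = -(π i B)
  have h4 : P - (starRingEnd ℂ) P = -(Real.pi * Complex.I * BB w1 w2 x) := by
    rw [hc]; linear_combination hr
  have h5 : P - (starRingEnd ℂ) P = 2 * P.im * Complex.I := by
    rw [Complex.sub_conj]; push_cast; ring
  have h6 : P = P.re + P.im * Complex.I := (Complex.re_add_im P).symm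
  have h7 : (P.im : ℂ) * Complex.I = -(Real.pi * Complex.I * BB w1 w2 x / 2) := by
    linear_combination (1 / 2 : ℂ) * h4 - (1 / 2 : ℂ) * h5
  have h8 : fad w1 w2 (x : ℂ) =
      ((Real.exp (-P.re) : ℝ) : ℂ) * Complex.exp (Real.pi * Complex.I * BB w1 w2 x / 2) := by
    unfold fad
    rw [← hP, Complex.ofReal_exp, ← Complex.exp_add]
    congr 1
    push_cast
    rw [h6, h7]
    simp only [Complex.add_re, Complex.neg_re, Complex.ofReal_re]
    have h9 : (-(Real.pi * Complex.I * BB w1 w2 x / 2 : ℂ)).re = 0 := by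
      rw [← h7]; simp
    rw [Complex.neg_re] at h9
    rw [h9]
    push_cast
    ring
  have h10 : ‖Complex.exp (Real.pi * Complex.I * BB w1 w2 x / 2)‖ = 1 := by
    rw [BB_ofReal, Complex.norm_exp]
    have : (Real.pi * Complex.I * (((x ^ 2 - (w1 + w2) * x + (w1 ^ 2 + w2 ^ 2 + 3 * w1 * w2) / 6) /
        (w1 * w2) : ℝ) : ℂ) / 2 : ℂ).re = 0 := by
      rw [show (Real.pi * Complex.I * (((x ^ 2 - (w1 + w2) * x +
        (w1 ^ 2 + w2 ^ 2 + 3 * w1 * w2) / 6) / (w1 * w2) : ℝ) : ℂ) / 2 : ℂ) =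
        ((Real.pi * ((x ^ 2 - (w1 + w2) * x + (w1 ^ 2 + w2 ^ 2 + 3 * w1 * w2) / 6) /
        (w1 * w2)) / 2 : ℝ) : ℂ) * Complex.I by push_cast; ring]
      rw [Complex.re_ofReal_mul, Complex.I_re, mul_zero]
    rw [this, Real.exp_zero]
  have h11 : ‖fad w1 w2 (x : ℂ)‖ = Real.exp (-P.re) := by
    rw [h8, norm_mul, h10, mul_one, Complex.norm_real, Real.norm_of_nonneg (Real.exp_pos _).le]
  rw [h11]
  exact h8

/-- Exponential convergence to one at the top of the strip. -/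
theorem fad_top (h1 : 0 < w1) (h2 : 0 < w2) (a b : ℝ) (ha : 0 < a) (hb : b < w1 + w2) :
    ∃ C ε : ℝ, 0 < ε ∧ ∀ z : ℂ, a ≤ z.re → z.re ≤ b → 0 ≤ z.im →
      ‖fad w1 w2 z - 1‖ ≤ C * Real.exp (-ε * z.im) := by
  have o1 := ok_left h1 h2
  have o2 := ok_right h1 h2
  set δ := Real.pi / (w1 + w2) with hδ
  have hA := adm_Phi o1 o2
  set ε : ℝ := min a (w1 + w2 - b) with hε
  have hεpos : 0 < ε := lt_min ha (by linarith)
  have hε1 : ε ≤ a := min_le_left _ _
  have hε2 : ε ≤ w1 + w2 - b := min_le_right _ _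
  set M : ℝ := 1 / (Real.sin (w1 * δ / 2) * Real.sin (w2 * δ / 2)) / |δ| *
    (∫ τ : ℝ, Real.exp (-ε * |τ|)) with hM
  have hM0 : 0 ≤ M := mul_nonneg hA.C_nonneg (integral_nonneg fun τ => (Real.exp_pos _).le)
  refine ⟨M * Real.exp M, δ, o1.d_pos, fun z hz1 hz2 hz3 => ?_⟩
  have h4 : ‖Phi w1 w2 δ z‖ ≤ M * Real.exp (-δ * z.im) :=
    hA.norm_LT_le hεpos (by linarith) (by linarith)
  have h5 : Real.exp (-δ * z.im) ≤ 1 := by
    rw [Real.exp_le_one_iff]
    have := mul_nonneg o1.d_pos.le hz3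
    linarith
  have h6 : ‖Phi w1 w2 δ z‖ ≤ M := h4.trans (by nlinarith)
  have h7 := Complex.norm_exp_sub_sum_le_norm_mul_exp (-(Phi w1 w2 δ z)) 1
  simp only [Finset.sum_range_one, pow_zero, Nat.factorial_zero, Nat.cast_one, div_one, pow_one,
    norm_neg] at h7
  unfold fad
  rw [← hδ]
  refine h7.trans ?_
  calc ‖Phi w1 w2 δ z‖ * Real.exp ‖Phi w1 w2 δ z‖
      ≤ (M * Real.exp (-δ * z.im)) * Real.exp M := by
        have := Real.exp_le_exp.mpr h6
        gcongr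
    _ = M * Real.exp M * Real.exp (-δ * z.im) := by ring

end

/-- **The Faddeev normalised double sine function satisfies the interface `SS`.** -/
theorem ss_fad {η : ℝ} (h1 : 1 < η) (hirr : Irrational η) : SS η (fad 1 η) where
  one_lt := h1
  irr := hirr
  diff := fun z hz => (differentiableAt_fad one_pos (by linarith) hz.1 hz.2).differentiableWithinAt
  ne := fun z _ _ => fad_ne 1 η z
  add_one := by
    intro z h0 h3
    have := fad_add (w1 := 1) (w2 := η) one_pos (by linarith) h0 h3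
    simpa using this
  add_eta := by
    intro z h0 h3
    have := fad_add' (w1 := 1) (w2 := η) one_pos (by linarith) h0 h3
    simpa using this
  refl := by
    intro z h0 h3
    have := fad_refl (w1 := 1) (w2 := η) one_pos (by linarith) (by simpa using hirr) h0 h3
    have e : BB 1 η z = Pool.Agent.Lib.MP_d0f9e0_co.AN.B22 η z := by
      unfold BB Pool.Agent.Lib.MP_d0f9e0_co.AN.B22; push_cast; ring
    rw [← e, ← this]
    push_cast
    rfl
  top := fun a b ha hb => fad_top one_pos (by linarith) a b ha hb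
  real := by
    intro x h0 h3
    have := fad_real (w1 := 1) (w2 := η) one_pos (by linarith) (by simpa using hirr) h0 h3
    have e : BB 1 η x = Pool.Agent.Lib.MP_d0f9e0_co.AN.B22 η x := by
      unfold BB Pool.Agent.Lib.MP_d0f9e0_co.AN.B22; push_cast; ring
    rw [e] at this
    exact this

theorem exists_SS {η : ℝ} (h1 : 1 < η) (hirr : Irrational η) : ∃ s, SS η s :=
  ⟨fad 1 η, ss_fad h1 hirr⟩

end Pool.Agent.F7
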