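import Pool.Agent.Lib.MP_d0f9e0_co.F7.Phi
import Pool.Agent.Lib.MP_d0f9e0_co.AN.Defs

/-!
# The Faddeev normalised double sine function

`fad w1 w2 z = exp (- ∫ e^{zt} / ((e^{w1 t} - 1) (e^{w2 t} - 1)) dt / t)` over `t = τ + i δ`, and
`exists_SS`: the interface `SS η` of the level `c` layer is satisfied.
-/

set_option autoImplicit false

open MeasureTheory Filter Topology Set
open Pool.MP_d0f9e0_co.CS (ee)

namespace Pool.Agent.F7

/-- Two incommensurable periods on the strip `0 < Re z < w1 + w2`. -/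
theorem two_per_aux {w1 w2 : ℝ} (hw1 : 0 < w1) (hirr : Irrational (w2 / w1)) (hlt : w1 < w2)
    {f : ℂ → ℂ} (hf : DifferentiableOn ℂ f {z : ℂ | 0 < z.re ∧ z.re < w1 + w2})
    (h1 : ∀ z : ℂ, 0 < z.re → z.re < w2 → f (z + w1) = f z)
    (h2 : ∀ z : ℂ, 0 < z.re → z.re < w1 → f (z + w2) = f z)
    {z w : ℂ} (hz : 0 < z.re) (hz' : z.re < w1 + w2) (hw : 0 < w.re) (hw' : w.re < w1 + w2) :
    f z = f w := by
  have hC : (w1 : ℂ) ≠ 0 := by exact_mod_cast hw1.ne'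
  have hb : 1 < w2 / w1 := by rw [lt_div_iff₀ hw1]; linarith
  have e0 : (w1 + w2) / w1 = 1 + w2 / w1 := by field_simp
  have key := B94.two_periods (f := fun u => f (w1 * u)) (a := 0) (b := 1 + w2 / w1) hirr hb
    (by linarith) ?_ ?_ ?_ (z := z / w1) (w := w / w1) ?_ ?_ ?_ ?_
  · simp only [mul_div_cancel₀ _ hC] at key
    exact key
  · refine hf.comp (by fun_prop) ?_
    intro u hu
    simp only [mem_ofPred_eq, Complex.re_ofReal_mul] at hu ⊢
    refine ⟨mul_pos hw1 hu.1, ?_⟩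
    have := mul_lt_mul_of_pos_left hu.2 hw1
    rw [← e0, mul_div_cancel₀ _ hw1.ne'] at this
    exact this
  · intro u hu0 hu1
    have := h1 (w1 * u) (by rw [Complex.re_ofReal_mul]; exact mul_pos hw1 hu0) (by
      rw [Complex.re_ofReal_mul]
      have := mul_lt_mul_of_pos_left (show u.re < w2 / w1 by linarith) hw1
      rwa [mul_div_cancel₀ _ hw1.ne'] at this)
    rw [mul_add, mul_one]
    exact this
  · intro u hu0 hu1
    have := h2 (w1 * u) (by rw [Complex.re_ofReal_mul]; exact mul_pos hw1 hu0) (by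
      rw [Complex.re_ofReal_mul]
      have := mul_lt_mul_of_pos_left (show u.re < 1 by linarith) hw1
      rwa [mul_one] at this)
    push_cast
    rw [mul_add, mul_div_cancel₀ _ hC]
    exact this
  · rw [Complex.div_ofReal_re]; exact div_pos hz hw1
  · rw [Complex.div_ofReal_re, ← e0]; gcongr
  · rw [Complex.div_ofReal_re]; exact div_pos hw hw1
  · rw [Complex.div_ofReal_re, ← e0]; gcongr

theorem two_per {w1 w2 : ℝ} (hw1 : 0 < w1) (hw2 : 0 < w2) (hirr : Irrational (w2 / w1))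
    {f : ℂ → ℂ} (hf : DifferentiableOn ℂ f {z : ℂ | 0 < z.re ∧ z.re < w1 + w2})
    (h1 : ∀ z : ℂ, 0 < z.re → z.re < w2 → f (z + w1) = f z)
    (h2 : ∀ z : ℂ, 0 < z.re → z.re < w1 → f (z + w2) = f z)
    {z w : ℂ} (hz : 0 < z.re) (hz' : z.re < w1 + w2) (hw : 0 < w.re) (hw' : w.re < w1 + w2) :
    f z = f w := by
  rcases lt_trichotomy w1 w2 with h | h | h
  · exact two_per_aux hw1 hirr h hf h1 h2 hz hz' hw hw'
  · exfalso
    rw [h, div_self hw2.ne'] at hirr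
    exact hirr.ne_one rfl
  · rw [add_comm] at hf hz' hw'
    refine two_per_aux hw2 ?_ h hf h2 h1 hz hz' hw hw'
    have := hirr.inv
    rwa [inv_div] at this

/-- The double Bernoulli polynomial with periods `w1, w2`. -/
noncomputable def BB (w1 w2 : ℝ) (z : ℂ) : ℂ :=
  (z ^ 2 - (w1 + w2) * z + (w1 ^ 2 + w2 ^ 2 + 3 * w1 * w2) / 6) / (w1 * w2)

/-- The symmetrised transform. -/
noncomputable def Dd (w1 w2 δ : ℝ) (z : ℂ) : ℂ := Phi w1 w2 δ z + Phi w1 w2 δ (w1 + w2 - z)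

section
variable {w1 w2 δ : ℝ}

theorem re_refl (w1 w2 : ℝ) (z : ℂ) : ((w1 : ℂ) + w2 - z).re = w1 + w2 - z.re := by simp

theorem Dd_add (h1 : Ok w1 δ) (h2 : Ok w2 δ) {z : ℂ} (h0 : 0 < z.re) (h3 : z.re < w2) :
    Dd w1 w2 δ (z + w1) = Dd w1 w2 δ z - 2 * Real.pi * Complex.I * (z / w2 - 1 / 2) := by
  have e1 : (w1 : ℂ) + w2 - (z + w1) = w2 - z := by ring
  have e2 : (w1 : ℂ) + w2 - z = (w2 - z) + w1 := by ring
  have g0 : 0 < ((w2 : ℂ) - z).re := by simp; linarith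
  have g1 : ((w2 : ℂ) - z).re < w2 := by simp; linarith
  unfold Dd
  rw [e1, e2, Phi_add h1 h2 h0 h3, Phi_add h1 h2 g0 g1]
  linear_combination Lam_sub h2 h0 h3

theorem Dd_comm (w1 w2 δ : ℝ) (z : ℂ) : Dd w1 w2 δ z = Dd w2 w1 δ z := by
  unfold Dd
  rw [Phi_comm w1 w2, Phi_comm w1 w2 δ (w1 + w2 - z), add_comm (w1 : ℂ) w2]

/-- `Dd` is a quadratic polynomial. -/
theorem Dd_eq (h1 : Ok w1 δ) (h2 : Ok w2 δ) (hirr : Irrational (w2 / w1)) :
    ∃ β : ℂ, ∀ z : ℂ, 0 < z.re → z.re < w1 + w2 →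
      Dd w1 w2 δ z = β - Real.pi * Complex.I * (z ^ 2 - (w1 + w2) * z) / (w1 * w2) := by
  have hw1 := h1.w_pos
  have hw2 := h2.w_pos
  have hC1 : (w1 : ℂ) ≠ 0 := by exact_mod_cast hw1.ne'
  have hC2 : (w2 : ℂ) ≠ 0 := by exact_mod_cast hw2.ne'
  set R : ℂ → ℂ := fun z =>
    Dd w1 w2 δ z + Real.pi * Complex.I * (z ^ 2 - (w1 + w2) * z) / (w1 * w2) with hR
  have hd : DifferentiableOn ℂ R {z : ℂ | 0 < z.re ∧ z.re < w1 + w2} := by
    intro z hz
    refine DifferentiableAt.differentiableWithinAt ?_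
    have g0 : 0 < ((w1 : ℂ) + w2 - z).re := by rw [re_refl]; linarith [hz.2]
    have g1 : ((w1 : ℂ) + w2 - z).re < w1 + w2 := by rw [re_refl]; linarith [hz.1]
    have d1 := (hasDerivAt_Phi h1 h2 hz.1 hz.2).differentiableAt
    have d2 := (hasDerivAt_Phi h1 h2 g0 g1).differentiableAt
    have d3 : DifferentiableAt ℂ (fun z : ℂ => Phi w1 w2 δ (w1 + w2 - z)) z :=
      DifferentiableAt.comp (g := Phi w1 w2 δ) (f := fun z : ℂ => (w1 : ℂ) + w2 - z) z d2
        (by fun_prop)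
    simp only [hR]
    unfold Dd
    refine (d1.add d3).add (by fun_prop)
  have hp1 : ∀ z : ℂ, 0 < z.re → z.re < w2 → R (z + w1) = R z := by
    intro z h0 h3
    simp only [hR]
    rw [Dd_add h1 h2 h0 h3]
    field_simp
    ring
  have hp2 : ∀ z : ℂ, 0 < z.re → z.re < w1 → R (z + w2) = R z := by
    intro z h0 h3
    simp only [hR]
    rw [Dd_comm w1 w2, Dd_comm w1 w2, Dd_add h2 h1 h0 h3]
    field_simp
    ring
  refine ⟨R ((w1 / 2 : ℝ) : ℂ), fun z h0 h3 => ?_⟩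
  have h4 := two_per hw1 hw2 hirr hd hp1 hp2 h0 h3 (w := ((w1 / 2 : ℝ) : ℂ))
    (by simp; linarith) (by simp; linarith)
  rw [← h4]
  simp only [hR]
  ring

theorem Dd_double (h1 : Ok w1 δ) (h2 : Ok w2 δ) (h11 : Ok (2 * w1) δ) {z : ℂ} (h0 : 0 < z.re)
    (h3 : z.re < w1 + w2) :
    Dd w1 w2 δ z = Dd (2 * w1) w2 δ z + Dd (2 * w1) w2 δ (z + w1) := by
  have hn : Ok (((2 : ℕ) : ℝ) * w1) δ := by simpa using h11
  have g0 : 0 < ((w1 : ℂ) + w2 - z).re := by rw [re_refl]; linarith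
  have g1 : ((w1 : ℂ) + w2 - z).re < w1 + w2 := by rw [re_refl]; linarith
  have r1 := Phi_refine h1 h2 2 hn h0 h3
  have r2 := Phi_refine h1 h2 2 hn g0 g1
  simp only [Finset.sum_range_succ, Finset.sum_range_zero, Nat.cast_ofNat, Nat.cast_zero,
    zero_mul, add_zero, zero_add, Nat.cast_one, one_mul] at r1 r2
  unfold Dd
  rw [r1, r2]
  push_cast
  have e1 : (2 * w1 : ℂ) + w2 - (z + w1) = w1 + w2 - z := by ring
  have e2 : (2 * w1 : ℂ) + w2 - z = w1 + w2 - z + w1 := by ring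
  rw [e1, e2]
  ring

theorem Dd_scale (h11 : Ok (2 * w1) δ) (h22 : Ok (2 * w2) δ) {z : ℂ} (h0 : 0 < z.re)
    (h3 : z.re < w1 + w2) : Dd (2 * w1) (2 * w2) δ (2 * z) = Dd w1 w2 δ z := by
  have hw1 : 0 < w1 := by have := h11.w_pos; linarith
  have hw2 : 0 < w2 := by have := h22.w_pos; linarith
  have hd := h11.d_pos
  have o1 : Ok w1 δ := h11.of_le hw1 hd (by linarith) le_rfl
  have o2 : Ok w2 δ := h22.of_le hw2 hd (by linarith) le_rfl
  have o1' : Ok w1 (2 * δ) := ⟨hw1, by linarith, by have := h11.lt; linarith⟩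
  have o2' : Ok w2 (2 * δ) := ⟨hw2, by linarith, by have := h22.lt; linarith⟩
  have g0 : 0 < ((w1 : ℂ) + w2 - z).re := by rw [re_refl]; linarith
  have g1 : ((w1 : ℂ) + w2 - z).re < w1 + w2 := by rw [re_refl]; linarith
  have r1 := Phi_homog (two_pos) w1 w2 δ z
  have r2 := Phi_homog (two_pos) w1 w2 δ ((w1 : ℂ) + w2 - z)
  unfold Dd
  push_cast at r1 r2 ⊢
  have e1 : (2 * w1 + 2 * w2 - 2 * z : ℂ) = 2 * (w1 + w2 - z) := by ring
  rw [e1, r1, r2, Phi_shift o1' o1 o2' o2 h0 h3, Phi_shift o1' o1 o2' o2 g0 g1]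

theorem Phi_refl_small (h11 : Ok (2 * w1) δ) (h22 : Ok (2 * w2) δ) (hirr : Irrational (w2 / w1))
    {z : ℂ} (h0 : 0 < z.re) (h3 : z.re < w1 + w2) :
    Dd w1 w2 δ z = -(Real.pi * Complex.I * BB w1 w2 z) := by
  have hw1 : 0 < w1 := by have := h11.w_pos; linarith
  have hw2 : 0 < w2 := by have := h22.w_pos; linarith
  have hC1 : (w1 : ℂ) ≠ 0 := by exact_mod_cast hw1.ne'
  have hC2 : (w2 : ℂ) ≠ 0 := by exact_mod_cast hw2.ne'
  have hd := h11.d_pos
  have o1 : Ok w1 δ := h11.of_le hw1 hd (by linarith) le_rfl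
  have o2 : Ok w2 δ := h22.of_le hw2 hd (by linarith) le_rfl
  have i1 : Irrational (w2 / (2 * w1)) := by
    have := hirr.div_natCast (m := 2) (by norm_num)
    have e : w2 / w1 / ((2 : ℕ) : ℝ) = w2 / (2 * w1) := by push_cast; field_simp
    rwa [e] at this
  have i2 : Irrational (2 * w2 / (2 * w1)) := by
    rwa [mul_div_mul_left _ _ (two_ne_zero)]
  obtain ⟨b0, hb0⟩ := Dd_eq o1 o2 hirr
  obtain ⟨b1, hb1⟩ := Dd_eq h11 o2 i1
  obtain ⟨b2, hb2⟩ := Dd_eq h11 h22 i2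
  set u : ℂ := ((w1 / 2 : ℝ) : ℂ) with hu
  have ure : u.re = w1 / 2 := by simp [hu]
  have q1 := Dd_double o1 o2 h11 (z := u) (by rw [ure]; linarith) (by rw [ure]; linarith)
  rw [hb0 u (by rw [ure]; linarith) (by rw [ure]; linarith),
    hb1 u (by rw [ure]; linarith) (by rw [ure]; linarith),
    hb1 (u + w1) (by simp [hu]; linarith) (by simp [hu]; linarith)] at q1
  have q2 := Dd_double o2 h11 h22 (z := u) (by rw [ure]; linarith) (by rw [ure]; linarith)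
  rw [Dd_comm w2 (2 * w1), Dd_comm (2 * w2) (2 * w1), Dd_comm (2 * w2) (2 * w1),
    hb1 u (by rw [ure]; linarith) (by rw [ure]; linarith),
    hb2 u (by rw [ure]; linarith) (by rw [ure]; linarith),
    hb2 (u + w2) (by simp [hu]; linarith) (by simp [hu]; linarith)] at q2
  have q3 := Dd_scale h11 h22 (z := u) (by rw [ure]; linarith) (by rw [ure]; linarith)
  rw [hb0 u (by rw [ure]; linarith) (by rw [ure]; linarith),
    hb2 (2 * u) (by simp [hu]; linarith) (by simp [hu]; linarith)] at q3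
  have hbeta : b0 = -(Real.pi * Complex.I * (w1 ^ 2 + w2 ^ 2 + 3 * w1 * w2) / 6 / (w1 * w2)) := by
    rw [hu] at q1 q2 q3
    push_cast at q1 q2 q3
    field_simp at q1 q2 q3 ⊢
    linear_combination (-(w1 : ℂ) / 4) * q1 - (1 / 4 : ℂ) * q2 - 2 * (w1 : ℂ) * q3
  rw [hb0 z h0 h3, hbeta]
  unfold BB
  ring

end

end Pool.Agent.F7
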