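import Pool.Agent.Lib.MP_d0f9e0_co.F7.Lt

/-!
# The one period transform

`Λ z = ∫ exp (z t) / ((exp (w t) - 1) t)` over `t = τ + i δ`, and `exp (-Λ z) = 1 - e(z/w)`.
-/

set_option autoImplicit false

open MeasureTheory Filter Topology Set
open Pool.MP_d0f9e0_co.CS (ee)

namespace Pool.Agent.F7

/-- Admissible height `δ` of the line for the period `w`. -/
structure Ok (w δ : ℝ) : Prop where
  w_pos : 0 < w
  d_pos : 0 < δ
  lt : w * δ < 2 * Real.pi

namespace Ok
variable {w δ : ℝ}

theorem sin_pos (h : Ok w δ) : 0 < Real.sin (w * δ / 2) := by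
  have := mul_pos h.w_pos h.d_pos
  exact Real.sin_pos_of_pos_of_lt_pi (by linarith) (by linarith [h.lt])

theorem norm_ge (h : Ok w δ) (τ : ℝ) :
    Real.sin (w * δ / 2) * (1 + Real.exp (w * τ)) ≤ ‖Complex.exp (w * hl δ τ) - 1‖ :=
  le_norm_exp_sub_one h.sin_pos.le

theorem ne (h : Ok w δ) (τ : ℝ) : Complex.exp (w * hl δ τ) - 1 ≠ 0 := by
  intro h1
  have h2 := h.norm_ge τ
  rw [h1, norm_zero] at h2
  have h3 : 0 < Real.sin (w * δ / 2) * (1 + Real.exp (w * τ)) :=
    mul_pos h.sin_pos (by positivity)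
  linarith

theorem of_le {w' δ' : ℝ} (h : Ok w δ) (hw : 0 < w') (hd : 0 < δ') (hww : w' ≤ w)
    (hdd : δ' ≤ δ) : Ok w' δ' :=
  ⟨hw, hd, lt_of_le_of_lt (mul_le_mul hww hdd hd.le (by linarith)) h.lt⟩

end Ok

/-- The kernel with one period. -/
noncomputable def p1 (w : ℝ) (t : ℂ) : ℂ := 1 / (Complex.exp (w * t) - 1)

/-- The kernel with two periods. -/
noncomputable def p2 (w1 w2 : ℝ) (t : ℂ) : ℂ :=
  1 / ((Complex.exp (w1 * t) - 1) * (Complex.exp (w2 * t) - 1))

theorem adm_p1 {w δ : ℝ} (h : Ok w δ) : Adm (p1 w) δ w (1 / Real.sin (w * δ / 2)) := by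
  refine ⟨?_, ?_⟩
  · refine continuous_const.div (((continuous_const.mul (hl_cont δ)).cexp).sub continuous_const) ?_
    exact h.ne
  · intro τ
    have h1 := h.norm_ge τ
    have h2 := h.sin_pos
    unfold p1
    rw [norm_div, norm_one, div_div]
    exact one_div_le_one_div_of_le (mul_pos h2 (by positivity)) h1

theorem adm_p2_aux {w1 w2 δ c1 c2 : ℝ} (h1 : 0 < c1) (h2 : 0 < c2)
    (hn1 : ∀ τ : ℝ, c1 * (1 + Real.exp (w1 * τ)) ≤ ‖Complex.exp (w1 * hl δ τ) - 1‖)
    (hn2 : ∀ τ : ℝ, c2 * (1 + Real.exp (w2 * τ)) ≤ ‖Complex.exp (w2 * hl δ τ) - 1‖) (τ : ℝ) :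
    ‖p2 w1 w2 (hl δ τ)‖ ≤ 1 / (c1 * c2) / (1 + Real.exp ((w1 + w2) * τ)) := by
  unfold p2
  rw [norm_div, norm_one, norm_mul, div_div]
  refine one_div_le_one_div_of_le (by positivity) ?_
  have e : Real.exp ((w1 + w2) * τ) = Real.exp (w1 * τ) * Real.exp (w2 * τ) := by
    rw [← Real.exp_add]; congr 1; ring
  have a1 := Real.exp_pos (w1 * τ)
  have a2 := Real.exp_pos (w2 * τ)
  calc c1 * c2 * (1 + Real.exp ((w1 + w2) * τ)) ≤
      (c1 * (1 + Real.exp (w1 * τ))) * (c2 * (1 + Real.exp (w2 * τ))) := by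
        rw [e]
        have : 0 ≤ c1 * c2 * (Real.exp (w1 * τ) + Real.exp (w2 * τ)) := by positivity
        nlinarith
    _ ≤ ‖Complex.exp (w1 * hl δ τ) - 1‖ * ‖Complex.exp (w2 * hl δ τ) - 1‖ := by
        have := hn1 τ
        have := hn2 τ
        gcongr

theorem adm_p2 {w1 w2 δ : ℝ} (h1 : Ok w1 δ) (h2 : Ok w2 δ) :
    Adm (p2 w1 w2) δ (w1 + w2) (1 / (Real.sin (w1 * δ / 2) * Real.sin (w2 * δ / 2))) := by
  refine ⟨?_, adm_p2_aux h1.sin_pos h2.sin_pos h1.norm_ge h2.norm_ge⟩
  refine continuous_const.div ((((continuous_const.mul (hl_cont δ)).cexp).sub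
    continuous_const).mul (((continuous_const.mul (hl_cont δ)).cexp).sub continuous_const)) ?_
  intro τ
  exact mul_ne_zero (h1.ne τ) (h2.ne τ)

/-- Change of variable: from the horizontal line to the vertical line. -/
theorem integral_scale_neg (f : ℝ → ℂ) {a : ℝ} (ha : 0 < a) :
    ∫ τ : ℝ, f τ = a * ∫ y : ℝ, f (-(a * y)) := by
  have h1 := MeasureTheory.Measure.integral_comp_mul_left f (-a)
  have e : (fun y : ℝ => f (-(a * y))) = fun y : ℝ => f (-a * y) := by
    funext y; congr 1; ring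
  rw [e, h1, abs_inv, abs_neg, abs_of_pos ha, Complex.real_smul]
  push_cast
  have : (a : ℂ) ≠ 0 := by exact_mod_cast ha.ne'
  field_simp

/-- The transform of the kernel with one period. -/
theorem J_formula {w δ : ℝ} (h : Ok w δ) {z : ℂ} (h0 : 0 < z.re) (h1 : z.re < w) :
    LT (p1 w) δ z * (1 - ee (z / w)) = 2 * Real.pi * Complex.I / w * ee (z / w) := by
  have hw := h.w_pos
  have hwC : (w : ℂ) ≠ 0 := by exact_mod_cast hw.ne'
  have hpi := Real.pi_pos
  have hpiC : (Real.pi : ℂ) ≠ 0 := by exact_mod_cast hpi.ne'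
  set k : ℂ → ℂ := fun u => Complex.exp (z * (2 * Real.pi * Complex.I / w) * u) with hk
  set x0 : ℝ := w * δ / (2 * Real.pi) with hx0
  have hx0pos : 0 < x0 := by have := h.d_pos; positivity
  have hx0lt : x0 < 1 := by rw [hx0, div_lt_one (by positivity)]; exact h.lt
  -- the bound on the kernel
  set ε : ℝ := 2 * Real.pi / w * min z.re (w - z.re) with hε
  have hm : 0 < min z.re (w - z.re) := lt_min h0 (by linarith)
  have hεpos : 0 < ε := by positivity
  have hbound : ∀ x y : ℝ, -(1 - x0) ≤ x → x ≤ 1 - (1 - x0) → 1 ≤ |y| →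
      ‖k (x + y * Complex.I) / (ee (x + y * Complex.I) - 1)‖ ≤
        (2 * Real.exp (2 * Real.pi / w * |z.im|)) * Real.exp (-ε * |y|) := by
    intro x y hx1 hx2 hy
    have hxabs : |x| ≤ 1 := abs_le.mpr ⟨by linarith, by linarith⟩
    have hkn : ‖k (x + y * Complex.I)‖ =
        Real.exp (2 * Real.pi / w * (-(z.re * y) - z.im * x)) := by
      simp only [hk]
      rw [Complex.norm_exp]
      congr 1
      have e1 : z * (2 * Real.pi * Complex.I / w) * (x + y * Complex.I) =
          ((2 * Real.pi / w : ℝ) : ℂ) * (z * (Complex.I * x - y)) := by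
        push_cast
        linear_combination (2 * Real.pi / w * z * y) * Complex.I_sq
      rw [e1, Complex.re_ofReal_mul]
      congr 1
      simp [Complex.mul_re]
    have heen : ‖ee (x + y * Complex.I)‖ = Real.exp (-(2 * Real.pi * y)) := by
      unfold Pool.MP_d0f9e0_co.CS.ee
      rw [Complex.norm_exp]
      congr 1
      simp [Complex.mul_re, Complex.mul_im]
    have hzx : -(z.im * x) ≤ |z.im| := by
      calc -(z.im * x) ≤ |z.im * x| := neg_le_abs _
        _ = |z.im| * |x| := abs_mul _ _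
        _ ≤ |z.im| * 1 := by gcongr
        _ = |z.im| := mul_one _
    have hpw : 0 < 2 * Real.pi / w := by positivity
    rw [norm_div, hkn]
    have hm1 := min_le_left z.re (w - z.re)
    have hm2 := min_le_right z.re (w - z.re)
    have hexp2 : Real.exp (-(2 * Real.pi)) ≤ 1 / 2 := by
      have h5 : Real.exp (-(2 * Real.pi)) ≤ Real.exp (-1) :=
        Real.exp_le_exp.mpr (by linarith [Real.pi_gt_three])
      have h6 : Real.exp (-1) < 1 / 2 := by
        have := Real.exp_one_gt_d9
        rw [Real.exp_neg, inv_eq_one_div]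
        exact one_div_lt_one_div_of_lt (by norm_num) (by linarith)
      linarith
    rcases le_total 0 y with hy0 | hy0
    · rw [abs_of_nonneg hy0] at hy ⊢
      have h5 : 1 / 2 ≤ ‖ee (x + y * Complex.I) - 1‖ := by
        have h6 := norm_sub_norm_le (1 : ℂ) (ee (x + y * Complex.I))
        rw [norm_one, heen, norm_sub_rev] at h6
        have h7 : Real.exp (-(2 * Real.pi * y)) ≤ Real.exp (-(2 * Real.pi)) :=
          Real.exp_le_exp.mpr (by nlinarith)
        linarith
      have h6 : 2 * Real.pi / w * (-(z.re * y) - z.im * x) ≤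
          2 * Real.pi / w * |z.im| + -ε * y := by
        rw [hε]
        have : min z.re (w - z.re) * y ≤ z.re * y := by gcongr
        nlinarith
      calc Real.exp (2 * Real.pi / w * (-(z.re * y) - z.im * x)) / ‖ee (x + y * Complex.I) - 1‖
          ≤ Real.exp (2 * Real.pi / w * |z.im| + -ε * y) / (1 / 2) := by gcongr
        _ = _ := by rw [Real.exp_add]; ring
    · rw [abs_of_nonpos hy0] at hy ⊢
      have h5 : Real.exp (-(2 * Real.pi * y)) / 2 ≤ ‖ee (x + y * Complex.I) - 1‖ := by
        have h6 := norm_sub_norm_le (ee (x + y * Complex.I)) (1 : ℂ)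
        rw [norm_one, heen] at h6
        have h7 : 2 ≤ Real.exp (-(2 * Real.pi * y)) := by
          have h8 : Real.exp (2 * Real.pi) ≤ Real.exp (-(2 * Real.pi * y)) :=
            Real.exp_le_exp.mpr (by nlinarith)
          have h9 : 2 ≤ Real.exp (2 * Real.pi) := by
            have := Real.add_one_le_exp (2 * Real.pi)
            linarith [Real.pi_gt_three]
          linarith
        linarith
      have h6 : 2 * Real.pi / w * (-(z.re * y) - z.im * x) - (-(2 * Real.pi * y)) ≤
          2 * Real.pi / w * |z.im| + -ε * -y := by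
        rw [hε]
        have e2 : 2 * Real.pi / w * (-(z.re * y) - z.im * x) - (-(2 * Real.pi * y)) =
            2 * Real.pi / w * ((w - z.re) * y - z.im * x) := by field_simp; ring
        rw [e2]
        have : min z.re (w - z.re) * (-y) ≤ (w - z.re) * (-y) :=
          mul_le_mul_of_nonneg_right hm2 (by linarith)
        nlinarith
      have hpe := Real.exp_pos (-(2 * Real.pi * y))
      calc Real.exp (2 * Real.pi / w * (-(z.re * y) - z.im * x)) / ‖ee (x + y * Complex.I) - 1‖
          ≤ Real.exp (2 * Real.pi / w * (-(z.re * y) - z.im * x)) /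
            (Real.exp (-(2 * Real.pi * y)) / 2) := by gcongr
        _ = 2 * Real.exp (2 * Real.pi / w * (-(z.re * y) - z.im * x) - (-(2 * Real.pi * y))) := by
            rw [Real.exp_sub]; field_simp
        _ ≤ 2 * Real.exp (2 * Real.pi / w * |z.im| + -ε * -y) := by gcongr
        _ = _ := by rw [Real.exp_add]; ring
  have hkd : Differentiable ℂ k := by simp only [hk]; fun_prop
  have hp := Pool.MP_d0f9e0_co.CS.pole_one (h := k) (δ := 1 - x0) (Y := 1) (by linarith)
    (by linarith) hεpos (fun u _ _ => hkd u) hbound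
  have hk0 : k 0 = 1 := by simp [hk]
  rw [hk0] at hp
  have e1 : (1 - (1 - x0) : ℝ) = x0 := by ring
  rw [e1] at hp
  set A : ℂ := ∫ y : ℝ, k (x0 + y * Complex.I) / (ee (x0 + y * Complex.I) - 1) with hA
  have e2 : (∫ y : ℝ, k ((-(1 - x0) : ℝ) + y * Complex.I) /
      (ee ((-(1 - x0) : ℝ) + y * Complex.I) - 1)) = ee (-(z / w)) * A := by
    rw [hA, ← integral_const_mul]
    refine integral_congr_ae (Eventually.of_forall fun y => ?_)
    have e3 : ((-(1 - x0) : ℝ) : ℂ) + y * Complex.I = (x0 + y * Complex.I) + ((-1 : ℤ) : ℂ) := by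
      push_cast; ring
    have e4 : k ((x0 + y * Complex.I) + ((-1 : ℤ) : ℂ)) =
        ee (-(z / w)) * k (x0 + y * Complex.I) := by
      simp only [hk]
      unfold Pool.MP_d0f9e0_co.CS.ee
      rw [← Complex.exp_add]
      congr 1
      push_cast
      ring
    simp only
    rw [e3, Pool.MP_d0f9e0_co.CS.ee_add_int, e4]
    ring
  rw [e2] at hp
  -- the change of variables
  have e5 : LT (p1 w) δ z = (2 * Real.pi / w : ℝ) * A := by
    unfold LT
    rw [integral_scale_neg _ (show 0 < 2 * Real.pi / w by positivity), hA]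
    congr 1
    refine integral_congr_ae (Eventually.of_forall fun y => ?_)
    have e6 : hl δ (-(2 * Real.pi / w * y)) = 2 * Real.pi * Complex.I / w * (x0 + y * Complex.I) := by
      unfold hl
      rw [hx0]
      push_cast
      field_simp
      linear_combination (-(2 * Real.pi * y) : ℂ) * Complex.I_sq
    simp only
    rw [e6]
    unfold p1
    simp only [hk]
    unfold Pool.MP_d0f9e0_co.CS.ee
    have e7 : (w : ℂ) * (2 * Real.pi * Complex.I / w * (x0 + y * Complex.I)) =
        2 * Real.pi * Complex.I * (x0 + y * Complex.I) := by field_simp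
    rw [e7, mul_one_div]
    congr 2
    ring
  rw [e5]
  have e8 : ee (-(z / w)) * ee (z / w) = 1 := by
    rw [← Pool.MP_d0f9e0_co.CS.ee_add, neg_add_cancel, Pool.MP_d0f9e0_co.CS.ee_zero]
  push_cast
  have hI := Complex.I_sq
  -- hp : I * (A - ee(-z/w) * A) = 1
  have h9 : A * (1 - ee (z / w)) = Complex.I * ee (z / w) := by
    linear_combination (Complex.I * ee (z / w)) * hp + (A - A * ee (z / w)) * hI +
      (A * Complex.I ^ 2) * e8
  linear_combination (2 * Real.pi / w : ℂ) * h9

/-- The one period transform with the extra `1/t`. -/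
noncomputable def Lam (w δ : ℝ) (z : ℂ) : ℂ := LT (fun t => p1 w t / t) δ z

theorem hasDerivAt_Lam {w δ : ℝ} (h : Ok w δ) {z : ℂ} (h0 : 0 < z.re) (h1 : z.re < w) :
    HasDerivAt (Lam w δ) (LT (p1 w) δ z) z :=
  (adm_p1 h).hasDerivAt h.d_pos.ne' h0 h1

theorem isOpen_strip (a b : ℝ) : IsOpen {z : ℂ | a < z.re ∧ z.re < b} :=
  (isOpen_lt continuous_const Complex.continuous_re).inter
    (isOpen_lt Complex.continuous_re continuous_const)

theorem preconn_strip (a b : ℝ) : IsPreconnected {z : ℂ | a < z.re ∧ z.re < b} := by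
  have e : {z : ℂ | a < z.re ∧ z.re < b} = Complex.reLm ⁻¹' Ioo a b := by ext z; simp
  rw [e]
  exact ((convex_Ioo a b).linear_preimage _).isPreconnected

theorem const_of_deriv {f : ℂ → ℂ} {a b : ℝ}
    (hf : ∀ z : ℂ, a < z.re → z.re < b → HasDerivAt f 0 z) {z w : ℂ} (hz : a < z.re)
    (hz' : z.re < b) (hw : a < w.re) (hw' : w.re < b) : f z = f w :=
  (isOpen_strip a b).is_const_of_deriv_eq_zero (preconn_strip a b)
    (fun z hz => (hf z hz.1 hz.2).differentiableAt.differentiableWithinAt)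
    (fun z hz => (hf z hz.1 hz.2).deriv) ⟨hz, hz'⟩ ⟨hw, hw'⟩

theorem hasDerivAt_ee_div (w : ℝ) (z : ℂ) :
    HasDerivAt (fun z : ℂ => ee (z / w)) (2 * Real.pi * Complex.I / w * ee (z / w)) z := by
  have h1 : HasDerivAt (fun z : ℂ => 2 * Real.pi * Complex.I * (z / w))
      (2 * Real.pi * Complex.I * (1 / w)) z := ((hasDerivAt_id z).div_const _).const_mul _
  have h2 := h1.cexp
  unfold Pool.MP_d0f9e0_co.CS.ee
  refine h2.congr_deriv ?_
  ring

theorem norm_ee (z : ℂ) : ‖ee z‖ = Real.exp (-(2 * Real.pi * z.im)) := by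
  unfold Pool.MP_d0f9e0_co.CS.ee
  rw [Complex.norm_exp]
  congr 1
  simp [Complex.mul_re, Complex.mul_im]

theorem tendsto_exp_neg {a : ℝ} (ha : 0 < a) (C : ℝ) :
    Tendsto (fun y : ℝ => C * Real.exp (-a * y)) atTop (𝓝 0) := by
  have := Pool.MP_d0f9e0_co.CS.bound_tendsto (C := C) ha 1
  simpa using this

/-- **The one period function.** -/
theorem exp_neg_Lam {w δ : ℝ} (h : Ok w δ) {z : ℂ} (h0 : 0 < z.re) (h1 : z.re < w) :
    Complex.exp (-(Lam w δ z)) = 1 - ee (z / w) := by
  have hw := h.w_pos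
  set G : ℂ → ℂ := fun z => Complex.exp (Lam w δ z) * (1 - ee (z / w)) with hG
  have hd : ∀ z : ℂ, 0 < z.re → z.re < w → HasDerivAt G 0 z := by
    intro z h0 h1
    have h2 := (hasDerivAt_Lam h h0 h1).cexp.mul ((hasDerivAt_ee_div w z).const_sub 1)
    have h3 := J_formula h h0 h1
    refine h2.congr_deriv ?_
    linear_combination Complex.exp (Lam w δ z) * h3
  have hlim : Tendsto (fun y : ℝ => G ((w / 2 : ℝ) + y * Complex.I)) atTop (𝓝 1) := by
    have hA := (adm_p1 h).div h.d_pos.ne'
    have hL : Tendsto (fun y : ℝ => Lam w δ ((w / 2 : ℝ) + y * Complex.I)) atTop (𝓝 0) := by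
      refine squeeze_zero_norm' (a := fun y : ℝ => (1 / Real.sin (w * δ / 2) / |δ| *
        (∫ τ : ℝ, Real.exp (-(w / 4) * |τ|))) * Real.exp (-δ * y)) ?_
        (tendsto_exp_neg h.d_pos _)
      refine Eventually.of_forall fun y => ?_
      have := hA.norm_LT_le (ε := w / 4) (by linarith) (z := (w / 2 : ℝ) + y * Complex.I)
        (by simp; linarith) (by simp; linarith)
      simpa [Lam] using this
    have hE : Tendsto (fun y : ℝ => ee (((w / 2 : ℝ) + y * Complex.I) / w)) atTop (𝓝 0) := by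
      refine squeeze_zero_norm' (a := fun y : ℝ => 1 * Real.exp (-(2 * Real.pi / w) * y)) ?_
        (tendsto_exp_neg (by positivity) _)
      refine Eventually.of_forall fun y => ?_
      rw [norm_ee, one_mul]
      refine le_of_eq ?_
      congr 1
      have : (((w / 2 : ℝ) + y * Complex.I) / w : ℂ).im = y / w := by
        rw [Complex.div_ofReal_im]; simp
      rw [this]
      ring
    have h3 := (Complex.continuous_exp.tendsto 0).comp hL
    rw [Complex.exp_zero] at h3
    have h4 := h3.mul (hE.const_sub 1)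
    simpa [hG, Function.comp_def] using h4
  have hconst : ∀ y : ℝ, G ((w / 2 : ℝ) + y * Complex.I) = G z := by
    intro y
    refine const_of_deriv hd ?_ ?_ h0 h1
    · simp; linarith
    · simp; linarith
  simp_rw [hconst] at hlim
  have h5 : G z = 1 := tendsto_nhds_unique tendsto_const_nhds hlim
  simp only [hG] at h5
  rw [Complex.exp_neg]
  rw [eq_comm, ← one_div, eq_div_iff (Complex.exp_ne_zero _), mul_comm]
  exact h5

/-- The antisymmetric part of `Lam`. -/
theorem Lam_sub {w δ : ℝ} (h : Ok w δ) {z : ℂ} (h0 : 0 < z.re) (h1 : z.re < w) :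
    Lam w δ z - Lam w δ (w - z) = -(2 * Real.pi * Complex.I * (z / w - 1 / 2)) := by
  have hw := h.w_pos
  have hwC : (w : ℂ) ≠ 0 := by exact_mod_cast hw.ne'
  set L : ℂ → ℂ := fun z => Lam w δ z - Lam w δ (w - z) +
    2 * Real.pi * Complex.I * (z / w - 1 / 2) with hL
  have hd : ∀ z : ℂ, 0 < z.re → z.re < w → HasDerivAt L 0 z := by
    intro z h0 h1
    have g0 : 0 < ((w : ℂ) - z).re := by simp; linarith
    have g1 : ((w : ℂ) - z).re < w := by simp; linarith
    have h2 : HasDerivAt (fun z : ℂ => (w : ℂ) - z) (-1) z := by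
      simpa using (hasDerivAt_id z).const_sub (w : ℂ)
    have h3 : HasDerivAt (fun z : ℂ => Lam w δ (w - z)) (LT (p1 w) δ (w - z) * (-1)) z :=
      (hasDerivAt_Lam h g0 g1).comp z h2
    have h4 : HasDerivAt (fun z : ℂ => 2 * Real.pi * Complex.I * (z / w - 1 / 2))
        (2 * Real.pi * Complex.I * (1 / w)) z :=
      (((hasDerivAt_id z).div_const _).sub_const _).const_mul _
    have h5 := ((hasDerivAt_Lam h h0 h1).sub h3).add h4
    refine h5.congr_deriv ?_
    have j1 := J_formula h h0 h1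
    have j2 := J_formula h g0 g1
    have e1 : ee (((w : ℂ) - z) / w) * ee (z / w) = 1 := by
      rw [← Pool.MP_d0f9e0_co.CS.ee_add, ← add_div, sub_add_cancel, div_self hwC]
      simpa using Pool.MP_d0f9e0_co.CS.ee_int 1
    have hne : 1 - ee (z / w) ≠ 0 := by
      intro h6
      have h7 := Pool.MP_d0f9e0_co.CS.ee_sub_one_ne (z := z / w)
        (by rw [Complex.div_ofReal_re]; have := div_pos h0 hw; linarith)
        (by rw [Complex.div_ofReal_re, div_lt_one hw]; exact h1)
        (by rw [Complex.div_ofReal_re]; exact (div_pos h0 hw).ne')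
      exact h7 (by linear_combination -h6)
    have hne2 : ee (z / w) ≠ 0 := by
      unfold Pool.MP_d0f9e0_co.CS.ee; exact Complex.exp_ne_zero _
    have j3 : LT (p1 w) δ (w - z) * (ee (z / w) - 1) = 2 * Real.pi * Complex.I / w := by
      linear_combination ee (z / w) * j2 + (LT (p1 w) δ (w - z) + 2 * Real.pi * Complex.I / w) * e1
    refine mul_right_cancel₀ hne ?_
    rw [zero_mul]
    linear_combination j1 - j3
  have h6 := const_of_deriv hd h0 h1 (w := ((w / 2 : ℝ) : ℂ)) (by simp; linarith)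
    (by simp; linarith)
  have h7 : L ((w / 2 : ℝ) : ℂ) = 0 := by
    simp only [hL]
    have e2 : (w : ℂ) - ((w / 2 : ℝ) : ℂ) = ((w / 2 : ℝ) : ℂ) := by push_cast; ring
    rw [e2]
    push_cast
    field_simp
    ring
  rw [h7] at h6
  simp only [hL] at h6
  linear_combination h6

end Pool.Agent.F7
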