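import Pool.Agent.Lib.MP_d0f9e0_co.B94a
import Pool.Agent.Lib.MP_d0f9e0_co.CS26

/-!
# Laplace transforms over a horizontal line

`LT φ δ z = ∫ exp (z t) φ t` over the line `t = τ + i δ`.
-/

set_option autoImplicit false

open MeasureTheory Filter Topology Set

namespace Pool.Agent.F7

/-- A point of the horizontal line of height `δ`. -/
noncomputable def hl (δ τ : ℝ) : ℂ := (τ : ℂ) + (δ : ℂ) * Complex.I

theorem hl_re (δ τ : ℝ) : (hl δ τ).re = τ := by simp [hl]
theorem hl_im (δ τ : ℝ) : (hl δ τ).im = δ := by simp [hl]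

theorem hl_cont (δ : ℝ) : Continuous (hl δ) := by unfold hl; fun_prop

theorem le_norm_hl (δ τ : ℝ) : |δ| ≤ ‖hl δ τ‖ := by
  have := Complex.abs_im_le_norm (hl δ τ)
  rwa [hl_im] at this

theorem hl_ne {δ : ℝ} (hδ : δ ≠ 0) (τ : ℝ) : hl δ τ ≠ 0 := by
  intro h
  have := congrArg Complex.im h
  rw [hl_im] at this
  exact hδ (by simpa using this)

/-- The Laplace transform over a horizontal line. -/
noncomputable def LT (φ : ℂ → ℂ) (δ : ℝ) (z : ℂ) : ℂ :=
  ∫ τ : ℝ, Complex.exp (z * hl δ τ) * φ (hl δ τ)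

/-- Continuous on the line and `O(1/(1+e^{W τ}))`. -/
structure Adm (φ : ℂ → ℂ) (δ W C : ℝ) : Prop where
  cont : Continuous fun τ : ℝ => φ (hl δ τ)
  bd : ∀ τ : ℝ, ‖φ (hl δ τ)‖ ≤ C / (1 + Real.exp (W * τ))

theorem exp_bd {x W ε τ : ℝ} (h1 : ε ≤ x) (h2 : x ≤ W - ε) :
    Real.exp (x * τ) / (1 + Real.exp (W * τ)) ≤ Real.exp (-ε * |τ|) := by
  have hp : 0 < 1 + Real.exp (W * τ) := by positivity
  rw [div_le_iff₀ hp, mul_add, mul_one, ← Real.exp_add]
  rcases le_total 0 τ with h | h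
  · rw [abs_of_nonneg h]
    have h3 : Real.exp (x * τ) ≤ Real.exp (-ε * τ + W * τ) :=
      Real.exp_le_exp.mpr (by nlinarith)
    linarith [Real.exp_pos (-ε * τ)]
  · rw [abs_of_nonpos h]
    have h3 : Real.exp (x * τ) ≤ Real.exp (-ε * -τ) := Real.exp_le_exp.mpr (by nlinarith)
    linarith [Real.exp_pos (-ε * -τ + W * τ)]

theorem norm_exp_hl (z : ℂ) (δ τ : ℝ) :
    ‖Complex.exp (z * hl δ τ)‖ = Real.exp (-δ * z.im) * Real.exp (z.re * τ) := by
  rw [Complex.norm_exp, ← Real.exp_add]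
  congr 1
  rw [Complex.mul_re, hl_re, hl_im]
  ring

namespace Adm

variable {φ : ℂ → ℂ} {δ W C : ℝ}

theorem C_nonneg (h : Adm φ δ W C) : 0 ≤ C := by
  have h1 := (norm_nonneg _).trans (h.bd 0)
  have h2 : (0 : ℝ) < 1 + Real.exp (W * 0) := by positivity
  by_contra h3
  push Not at h3
  have := div_neg_of_neg_of_pos h3 h2
  linarith

theorem norm_le (h : Adm φ δ W C) {z : ℂ} {ε : ℝ} (h1 : ε ≤ z.re) (h2 : z.re ≤ W - ε) (τ : ℝ) :
    ‖Complex.exp (z * hl δ τ) * φ (hl δ τ)‖ ≤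
      C * Real.exp (-δ * z.im) * Real.exp (-ε * |τ|) := by
  rw [norm_mul, norm_exp_hl]
  have h3 := h.bd τ
  have h4 := exp_bd (τ := τ) h1 h2
  have hp : 0 < 1 + Real.exp (W * τ) := by positivity
  calc Real.exp (-δ * z.im) * Real.exp (z.re * τ) * ‖φ (hl δ τ)‖
      ≤ Real.exp (-δ * z.im) * Real.exp (z.re * τ) * (C / (1 + Real.exp (W * τ))) := by
        gcongr
    _ = C * Real.exp (-δ * z.im) * (Real.exp (z.re * τ) / (1 + Real.exp (W * τ))) := by ring
    _ ≤ C * Real.exp (-δ * z.im) * Real.exp (-ε * |τ|) := by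
        have := h.C_nonneg
        gcongr

theorem cont_integrand (h : Adm φ δ W C) (z : ℂ) :
    Continuous fun τ : ℝ => Complex.exp (z * hl δ τ) * φ (hl δ τ) := by
  exact ((continuous_const.mul (hl_cont δ)).cexp).mul h.cont

theorem integrable (h : Adm φ δ W C) {z : ℂ} (h1 : 0 < z.re) (h2 : z.re < W) :
    Integrable fun τ : ℝ => Complex.exp (z * hl δ τ) * φ (hl δ τ) := by
  have hε : 0 < min z.re (W - z.re) := lt_min h1 (by linarith)
  refine Integrable.mono' (B94.integrable_exp_abs hε (C * Real.exp (-δ * z.im)))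
    (h.cont_integrand z).aestronglyMeasurable (Eventually.of_forall fun τ => ?_)
  refine h.norm_le (min_le_left _ _) ?_ τ
  have := min_le_right z.re (W - z.re)
  linarith

/-- Bound of the transform in a closed substrip. -/
theorem norm_LT_le (h : Adm φ δ W C) {ε : ℝ} (hε : 0 < ε) {z : ℂ} (h1 : ε ≤ z.re)
    (h2 : z.re ≤ W - ε) :
    ‖LT φ δ z‖ ≤ C * (∫ τ : ℝ, Real.exp (-ε * |τ|)) * Real.exp (-δ * z.im) := by
  have hi : Integrable fun τ : ℝ => C * Real.exp (-δ * z.im) * Real.exp (-ε * |τ|) :=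
    B94.integrable_exp_abs hε _
  refine (norm_integral_le_of_norm_le hi (Eventually.of_forall fun τ =>
    h.norm_le h1 h2 τ)).trans (le_of_eq ?_)
  rw [integral_const_mul]
  ring

theorem div (h : Adm φ δ W C) (hδ : δ ≠ 0) : Adm (fun t => φ t / t) δ W (C / |δ|) := by
  refine ⟨?_, ?_⟩
  · exact h.cont.div (hl_cont δ) (hl_ne hδ)
  · intro τ
    rw [norm_div]
    have h1 := h.bd τ
    have h2 := le_norm_hl δ τ
    have h3 : 0 < |δ| := abs_pos.mpr hδ
    have h4 := h.C_nonneg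
    calc ‖φ (hl δ τ)‖ / ‖hl δ τ‖ ≤ (C / (1 + Real.exp (W * τ))) / |δ| := by gcongr
      _ = C / |δ| / (1 + Real.exp (W * τ)) := by ring

/-- The derivative of the transform of `φ t / t` is the transform of `φ`. -/
theorem hasDerivAt (h : Adm φ δ W C) (hδ : δ ≠ 0) {z : ℂ} (h1 : 0 < z.re) (h2 : z.re < W) :
    HasDerivAt (LT (fun t => φ t / t) δ) (LT φ δ z) z := by
  set r : ℝ := min z.re (W - z.re) / 2 with hr
  have hm : 0 < min z.re (W - z.re) := lt_min h1 (by linarith)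
  have hr0 : 0 < r := by positivity
  have hd := h.div hδ
  have hm1 := min_le_left z.re (W - z.re)
  have hm2 := min_le_right z.re (W - z.re)
  have hball : ∀ p ∈ Metric.ball z r, r ≤ p.re ∧ p.re ≤ W - r ∧ |p.im - z.im| ≤ r := by
    intro p hp
    rw [Metric.mem_ball, Complex.dist_eq] at hp
    have h3 := (Complex.abs_re_le_norm (p - z)).trans hp.le
    have h4 := (Complex.abs_im_le_norm (p - z)).trans hp.le
    rw [Complex.sub_re, abs_le] at h3
    rw [Complex.sub_im] at h4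
    refine ⟨by linarith, by linarith, h4⟩
  have key := hasDerivAt_integral_of_dominated_loc_of_deriv_le (μ := volume) (𝕜 := ℂ)
    (F := fun (p : ℂ) (τ : ℝ) => Complex.exp (p * hl δ τ) * (φ (hl δ τ) / hl δ τ))
    (F' := fun (p : ℂ) (τ : ℝ) => Complex.exp (p * hl δ τ) * φ (hl δ τ)) (x₀ := z)
    (s := Metric.ball z r)
    (bound := fun τ => C * Real.exp (|δ| * (|z.im| + r)) * Real.exp (-r * |τ|))
    (Metric.ball_mem_nhds z hr0)
    (Eventually.of_forall fun p => (hd.cont_integrand p).aestronglyMeasurable)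
    (hd.integrable h1 h2)
    (h.cont_integrand z).aestronglyMeasurable
    (Eventually.of_forall fun τ p hp => ?_)
    (B94.integrable_exp_abs hr0 _)
    (Eventually.of_forall fun τ p hp => ?_)
  · exact key.2
  · obtain ⟨h3, h4, h5⟩ := hball p hp
    refine (h.norm_le h3 h4 τ).trans ?_
    have hC := h.C_nonneg
    have h6 : -δ * p.im ≤ |δ| * (|z.im| + r) := by
      have h7 : |p.im| ≤ |z.im| + r := by
        have := abs_add_le (p.im - z.im) z.im
        rw [sub_add_cancel] at this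
        linarith
      calc -δ * p.im ≤ |-δ * p.im| := le_abs_self _
        _ = |δ| * |p.im| := by rw [abs_mul, abs_neg]
        _ ≤ |δ| * (|z.im| + r) := by gcongr
    gcongr
  · have h3 : HasDerivAt (fun p : ℂ => p * hl δ τ) (1 * hl δ τ) p :=
      (hasDerivAt_id p).mul_const _
    have h4 := (h3.cexp).mul_const (φ (hl δ τ) / hl δ τ)
    have h5 : Complex.exp (p * hl δ τ) * (1 * hl δ τ) * (φ (hl δ τ) / hl δ τ) =
        Complex.exp (p * hl δ τ) * φ (hl δ τ) := by
      have := hl_ne hδ τ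
      field_simp
    rw [h5] at h4
    exact h4

end Adm

/-- The lower bound `|r e^{iθ} - 1| ≥ sin (θ/2) (1 + r)`. -/
theorem le_norm_exp_sub_one {w δ τ : ℝ} (h0 : 0 ≤ Real.sin (w * δ / 2)) :
    Real.sin (w * δ / 2) * (1 + Real.exp (w * τ)) ≤ ‖Complex.exp (w * hl δ τ) - 1‖ := by
  have hre : (Complex.exp (w * hl δ τ) - 1).re = Real.exp (w * τ) * Real.cos (w * δ) - 1 := by
    rw [Complex.sub_re, Complex.exp_re]
    simp [Complex.mul_re, Complex.mul_im, hl_re, hl_im]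
  have him : (Complex.exp (w * hl δ τ) - 1).im = Real.exp (w * τ) * Real.sin (w * δ) := by
    rw [Complex.sub_im, Complex.exp_im]
    simp [Complex.mul_re, Complex.mul_im, hl_re, hl_im]
  have h1 : ‖Complex.exp (w * hl δ τ) - 1‖ ^ 2 =
      (Real.exp (w * τ) * Real.cos (w * δ) - 1) ^ 2 + (Real.exp (w * τ) * Real.sin (w * δ)) ^ 2 := by
    rw [← Complex.normSq_eq_norm_sq, Complex.normSq_apply, hre, him]
    ring
  have h2 : Real.cos (w * δ) = 1 - 2 * Real.sin (w * δ / 2) ^ 2 := by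
    have := Real.cos_two_mul (w * δ / 2)
    rw [show 2 * (w * δ / 2) = w * δ by ring] at this
    rw [this, Real.cos_sq' (w * δ / 2)]
    ring
  have h3 : Real.sin (w * δ) ^ 2 = 1 - Real.cos (w * δ) ^ 2 := Real.sin_sq _
  have hE := Real.exp_pos (w * τ)
  have hs1 : Real.sin (w * δ / 2) ^ 2 ≤ 1 := Real.sin_sq_le_one _
  refine (pow_le_pow_iff_left₀ (mul_nonneg h0 (by positivity)) (norm_nonneg _)
    two_ne_zero).mp ?_
  rw [h1]
  have h4 : (Real.exp (w * τ) * Real.cos (w * δ) - 1) ^ 2 +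
      (Real.exp (w * τ) * Real.sin (w * δ)) ^ 2 =
      (Real.sin (w * δ / 2) * (1 + Real.exp (w * τ))) ^ 2 +
        (1 - Real.sin (w * δ / 2) ^ 2) * (1 - Real.exp (w * τ)) ^ 2 := by
    rw [mul_pow (Real.exp (w * τ)) (Real.sin (w * δ)), h3, h2]
    ring
  rw [h4]
  have : 0 ≤ (1 - Real.sin (w * δ / 2) ^ 2) * (1 - Real.exp (w * τ)) ^ 2 :=
    mul_nonneg (by linarith) (sq_nonneg _)
  linarith

end Pool.Agent.F7
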