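import Pool.Agent.Lib.MP_d0f9e0_co.F7.Lam

/-!
# The two period transform

`Phi w1 w2 δ z = ∫ exp (z t) / ((exp (w1 t) - 1) (exp (w2 t) - 1) t)` over `t = τ + i δ`.
-/

set_option autoImplicit false

open MeasureTheory Filter Topology Set
open Pool.MP_d0f9e0_co.CS (ee)

namespace Pool.Agent.F7

/-- The two period transform. -/
noncomputable def Phi (w1 w2 δ : ℝ) (z : ℂ) : ℂ := LT (fun t => p2 w1 w2 t / t) δ z

theorem p2_comm (w1 w2 : ℝ) (t : ℂ) : p2 w1 w2 t = p2 w2 w1 t := by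
  unfold p2; rw [mul_comm]

theorem Phi_comm (w1 w2 δ : ℝ) (z : ℂ) : Phi w1 w2 δ z = Phi w2 w1 δ z := by
  unfold Phi; simp_rw [p2_comm w1 w2]

theorem alg_add {A E1 E2 t : ℂ} (n1 : E1 - 1 ≠ 0) (n2 : E2 - 1 ≠ 0) (n3 : t ≠ 0) :
    A * E1 * (1 / ((E1 - 1) * (E2 - 1)) / t) =
      A * (1 / ((E1 - 1) * (E2 - 1)) / t) + A * (1 / (E2 - 1) / t) := by
  field_simp
  ring

theorem alg_split {A E1 E2 t : ℂ} (n1 : E1 - 1 ≠ 0) (n2 : E2 - 1 ≠ 0) (n12 : E1 * E2 - 1 ≠ 0)
    (n3 : t ≠ 0) :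
    A * (1 / ((E1 - 1) * (E2 - 1)) / t) =
      A * (1 / ((E1 - 1) * (E1 * E2 - 1)) / t) +
        A * E2 * (1 / ((E1 * E2 - 1) * (E2 - 1)) / t) := by
  field_simp
  ring

theorem alg_refine {A E1 E2 t P S : ℂ} (n1 : E1 - 1 ≠ 0) (n2 : E2 - 1 ≠ 0) (nn : P - 1 ≠ 0)
    (n3 : t ≠ 0) (hg : S * (E1 - 1) = P - 1) :
    A * (1 / ((E1 - 1) * (E2 - 1)) / t) = A * S * (1 / ((P - 1) * (E2 - 1)) / t) := by
  have hS : S = (P - 1) / (E1 - 1) := by rw [eq_div_iff n1]; exact hg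
  rw [hS]
  field_simp

section basic
variable {w1 w2 δ : ℝ}

theorem adm_Phi (h1 : Ok w1 δ) (h2 : Ok w2 δ) : Adm (fun t => p2 w1 w2 t / t) δ (w1 + w2)
    (1 / (Real.sin (w1 * δ / 2) * Real.sin (w2 * δ / 2)) / |δ|) :=
  (adm_p2 h1 h2).div h1.d_pos.ne'

theorem hasDerivAt_Phi (h1 : Ok w1 δ) (h2 : Ok w2 δ) {z : ℂ} (h0 : 0 < z.re)
    (h3 : z.re < w1 + w2) : HasDerivAt (Phi w1 w2 δ) (LT (p2 w1 w2) δ z) z :=
  (adm_p2 h1 h2).hasDerivAt h1.d_pos.ne' h0 h3

theorem integrable_Phi (h1 : Ok w1 δ) (h2 : Ok w2 δ) {z : ℂ} (h0 : 0 < z.re)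
    (h3 : z.re < w1 + w2) :
    Integrable fun τ : ℝ => Complex.exp (z * hl δ τ) * (p2 w1 w2 (hl δ τ) / hl δ τ) :=
  (adm_Phi h1 h2).integrable h0 h3

/-- Shift by the first period. -/
theorem Phi_add (h1 : Ok w1 δ) (h2 : Ok w2 δ) {z : ℂ} (h0 : 0 < z.re) (h3 : z.re < w2) :
    Phi w1 w2 δ (z + w1) = Phi w1 w2 δ z + Lam w2 δ z := by
  have hw1 := h1.w_pos
  have i1 := integrable_Phi h1 h2 (z := z) h0 (by linarith)
  have i2 := ((adm_p1 h2).div h1.d_pos.ne').integrable (z := z) h0 h3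
  unfold Phi Lam LT
  rw [← integral_add i1 i2]
  refine integral_congr_ae (Eventually.of_forall fun τ => ?_)
  have n1 := h1.ne τ
  have n2 := h2.ne τ
  have n3 := hl_ne h1.d_pos.ne' τ
  simp only
  unfold p1 p2
  rw [add_mul, Complex.exp_add]
  exact alg_add n1 n2 n3

theorem Phi_add' (h1 : Ok w1 δ) (h2 : Ok w2 δ) {z : ℂ} (h0 : 0 < z.re) (h3 : z.re < w1) :
    Phi w1 w2 δ (z + w2) = Phi w1 w2 δ z + Lam w1 δ z := by
  rw [Phi_comm w1 w2, Phi_comm w1 w2, Phi_add h2 h1 h0 h3]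

/-- Cone splitting. -/
theorem Phi_split (h1 : Ok w1 δ) (h2 : Ok w2 δ) (h12 : Ok (w1 + w2) δ) {z : ℂ} (h0 : 0 < z.re)
    (h3 : z.re < w1 + w2) :
    Phi w1 w2 δ z = Phi w1 (w1 + w2) δ z + Phi (w1 + w2) w2 δ (z + w2) := by
  have hw1 := h1.w_pos
  have hw2 := h2.w_pos
  have i1 := integrable_Phi h1 h12 (z := z) h0 (by linarith)
  have i2 := integrable_Phi h12 h2 (z := z + w2) (by simp; linarith) (by simp; linarith)
  unfold Phi LT
  rw [← integral_add i1 i2]
  refine integral_congr_ae (Eventually.of_forall fun τ => ?_)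
  have n1 := h1.ne τ
  have n2 := h2.ne τ
  have n12 := h12.ne τ
  have n3 := hl_ne h1.d_pos.ne' τ
  simp only
  unfold p2
  have e : Complex.exp (((w1 + w2 : ℝ) : ℂ) * hl δ τ) =
      Complex.exp (w1 * hl δ τ) * Complex.exp (w2 * hl δ τ) := by
    rw [← Complex.exp_add]; congr 1; push_cast; ring
  rw [e] at n12 ⊢
  rw [add_mul, Complex.exp_add]
  exact alg_split n1 n2 n12 n3

/-- Refinement. -/
theorem Phi_refine (h1 : Ok w1 δ) (h2 : Ok w2 δ) (n : ℕ) (hn : Ok (n * w1) δ)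
    {z : ℂ} (h0 : 0 < z.re) (h3 : z.re < w1 + w2) :
    Phi w1 w2 δ z = ∑ k ∈ Finset.range n, Phi (n * w1) w2 δ (z + k * w1) := by
  have hw1 := h1.w_pos
  have hw2 := h2.w_pos
  have i1 : ∀ k ∈ Finset.range n, Integrable fun τ : ℝ =>
      Complex.exp ((z + k * w1) * hl δ τ) * (p2 (n * w1) w2 (hl δ τ) / hl δ τ) := by
    intro k hk
    have hk' : (k : ℝ) + 1 ≤ n := by exact_mod_cast Finset.mem_range.mp hk
    have e1 : (z + k * w1).re = z.re + k * w1 := by simp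
    refine integrable_Phi hn h2 ?_ ?_
    · rw [e1]; positivity
    · rw [e1]; nlinarith
  unfold Phi LT
  rw [← integral_finsetSum _ i1]
  refine integral_congr_ae (Eventually.of_forall fun τ => ?_)
  have n1 := h1.ne τ
  have n2 := h2.ne τ
  have nn := hn.ne τ
  have n3 := hl_ne h1.d_pos.ne' τ
  have hgeom := geom_sum_mul (Complex.exp (w1 * hl δ τ)) n
  have e : Complex.exp (((n * w1 : ℝ) : ℂ) * hl δ τ) = Complex.exp (w1 * hl δ τ) ^ n := by
    rw [← Complex.exp_nat_mul]; congr 1; push_cast; ring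
  have e2 : ∀ k : ℕ, Complex.exp ((z + k * w1) * hl δ τ) =
      Complex.exp (z * hl δ τ) * Complex.exp (w1 * hl δ τ) ^ k := by
    intro k
    rw [← Complex.exp_nat_mul, ← Complex.exp_add]; congr 1; ring
  simp only
  unfold p2
  rw [e] at nn
  simp_rw [e2, e]
  rw [← Finset.sum_mul, ← Finset.mul_sum]
  exact alg_refine n1 n2 nn n3 hgeom

/-- Homogeneity. -/
theorem Phi_homog {c : ℝ} (hc : 0 < c) (w1 w2 δ : ℝ) (z : ℂ) :
    Phi (c * w1) (c * w2) δ (c * z) = Phi w1 w2 (c * δ) z := by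
  have hcC : (c : ℂ) ≠ 0 := by exact_mod_cast hc.ne'
  unfold Phi LT
  have h1 := MeasureTheory.Measure.integral_comp_mul_left
    (fun σ : ℝ => Complex.exp (z * hl (c * δ) σ) * (p2 w1 w2 (hl (c * δ) σ) / hl (c * δ) σ)) c
  have e : ∀ τ : ℝ, Complex.exp (c * z * hl δ τ) *
      (p2 (c * w1) (c * w2) (hl δ τ) / hl δ τ) = c *
      (Complex.exp (z * hl (c * δ) (c * τ)) *
        (p2 w1 w2 (hl (c * δ) (c * τ)) / hl (c * δ) (c * τ))) := by
    intro τ
    have e1 : hl (c * δ) (c * τ) = c * hl δ τ := by unfold hl; push_cast; ring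
    rw [e1]
    unfold p2
    push_cast
    rw [show (c : ℂ) * z * hl δ τ = z * (c * hl δ τ) by ring,
      show (c : ℂ) * w1 * hl δ τ = w1 * (c * hl δ τ) by ring,
      show (c : ℂ) * w2 * hl δ τ = w2 * (c * hl δ τ) by ring]
    rw [div_mul_eq_div_div_swap]
    by_cases h0 : hl δ τ = 0
    · simp [h0]
    · field_simp
  simp_rw [e]
  rw [integral_const_mul]
  rw [h1, abs_of_pos (inv_pos.mpr hc), Complex.real_smul]
  push_cast
  field_simp

end basic

/-- The transform does not depend on the height of the line. -/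
theorem LT_shift {φ : ℂ → ℂ} {a b W C : ℝ} (hab : a ≤ b)
    (hd : ∀ t : ℂ, a ≤ t.im → t.im ≤ b → DifferentiableAt ℂ φ t)
    (hb : ∀ x : ℝ, a ≤ x → x ≤ b → ∀ τ : ℝ, ‖φ (hl x τ)‖ ≤ C / (1 + Real.exp (W * τ)))
    {z : ℂ} (h0 : 0 < z.re) (h1 : z.re < W) : LT φ a z = LT φ b z := by
  set f : ℂ → ℂ := fun u => Complex.exp (z * (Complex.I * u)) * φ (Complex.I * u) with hf
  have hm : 0 < min z.re (W - z.re) := lt_min h0 (by linarith)
  have hm1 := min_le_left z.re (W - z.re)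
  have hm2 := min_le_right z.re (W - z.re)
  have hIu : ∀ x y : ℝ, Complex.I * ((x : ℂ) + y * Complex.I) = hl x (-y) := by
    intro x y
    unfold hl
    push_cast
    linear_combination (y : ℂ) * Complex.I_sq
  have hline : ∀ x : ℝ, (∫ y : ℝ, f (x + y * Complex.I)) = LT φ x z := by
    intro x
    unfold LT
    rw [← integral_neg_eq_self]
    refine integral_congr_ae (Eventually.of_forall fun y => ?_)
    simp only [hf]
    rw [hIu]
    simp
  have hadm : ∀ x : ℝ, a ≤ x → x ≤ b → Adm φ x W C := by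
    intro x hx1 hx2
    refine ⟨?_, hb x hx1 hx2⟩
    rw [continuous_iff_continuousAt]
    intro τ
    have h3 : ContinuousAt φ (hl x τ) :=
      (hd (hl x τ) (by rw [hl_im]; exact hx1) (by rw [hl_im]; exact hx2)).continuousAt
    exact ContinuousAt.comp (f := hl x) h3 (hl_cont x).continuousAt
  have key := Pool.MP_d0f9e0_co.CS.vshift (f := f) (a := a) (b := b) (Y := 0)
    (C := C * Real.exp ((|a| + |b|) * |z.im|)) hab hm ?_ ?_
  · rw [hline, hline] at key
    exact key.symm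
  · intro u hu1 hu2
    have h3 : DifferentiableAt ℂ φ (Complex.I * u) := by
      refine hd _ ?_ ?_
      · simpa using hu1
      · simpa using hu2
    simp only [hf]
    refine DifferentiableAt.mul (by fun_prop) ?_
    exact DifferentiableAt.comp (g := φ) (f := fun u => Complex.I * u) u h3 (by fun_prop)
  · intro x y hx1 hx2 _
    simp only [hf]
    rw [hIu]
    have hA := hadm x hx1 hx2
    refine (hA.norm_le (z := z) (ε := min z.re (W - z.re)) hm1 (by linarith) (-y)).trans ?_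
    rw [abs_neg]
    have hC := hA.C_nonneg
    have hx : |x| ≤ |a| + |b| := by
      rw [abs_le]
      constructor
      · have := neg_abs_le a; have := abs_nonneg b; linarith
      · have := le_abs_self b; have := abs_nonneg a; linarith
    have h6 : -x * z.im ≤ (|a| + |b|) * |z.im| := by
      calc -x * z.im ≤ |-x * z.im| := le_abs_self _
        _ = |x| * |z.im| := by rw [abs_mul, abs_neg]
        _ ≤ (|a| + |b|) * |z.im| := by gcongr
    gcongr

theorem sin_ge {w a b x : ℝ} (ha : Ok w a) (hb : Ok w b) (h1 : a ≤ x) (h2 : x ≤ b) :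
    min (Real.sin (w * a / 2)) (Real.sin (w * b / 2)) ≤ Real.sin (w * x / 2) := by
  have hw := ha.w_pos
  have hc := strictConcaveOn_sin_Icc.concaveOn
  refine hc.min_le_of_mem_Icc ?_ ?_ ?_
  · have := mul_pos hw ha.d_pos; exact ⟨by linarith, by linarith [ha.lt]⟩
  · have := mul_pos hw hb.d_pos; exact ⟨by linarith, by linarith [hb.lt]⟩
  · constructor
    · have := mul_le_mul_of_nonneg_left h1 hw.le; linarith
    · have := mul_le_mul_of_nonneg_left h2 hw.le; linarith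

theorem norm_ge_unif {w a b x : ℝ} (ha : Ok w a) (hb : Ok w b) (h1 : a ≤ x) (h2 : x ≤ b)
    (τ : ℝ) : min (Real.sin (w * a / 2)) (Real.sin (w * b / 2)) * (1 + Real.exp (w * τ)) ≤
      ‖Complex.exp (w * hl x τ) - 1‖ := by
  have h3 := sin_ge ha hb h1 h2
  have h4 : 0 < min (Real.sin (w * a / 2)) (Real.sin (w * b / 2)) :=
    lt_min ha.sin_pos hb.sin_pos
  refine le_trans ?_ (le_norm_exp_sub_one (by linarith))
  gcongr

theorem Phi_shift_aux {w1 w2 a b : ℝ} (ha1 : Ok w1 a) (hb1 : Ok w1 b) (ha2 : Ok w2 a)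
    (hb2 : Ok w2 b) (hab : a ≤ b) {z : ℂ} (h0 : 0 < z.re) (h3 : z.re < w1 + w2) :
    Phi w1 w2 a z = Phi w1 w2 b z := by
  have hn : ∀ w : ℝ, Ok w a → Ok w b → ∀ t : ℂ, a ≤ t.im → t.im ≤ b →
      Complex.exp (w * t) - 1 ≠ 0 := by
    intro w ha hb t h1 h2 h4
    have h5 := norm_ge_unif ha hb h1 h2 t.re
    have e : hl t.im t.re = t := by
      unfold hl
      exact Complex.re_add_im t
    rw [e, h4, norm_zero] at h5
    have h6 : 0 < min (Real.sin (w * a / 2)) (Real.sin (w * b / 2)) *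
        (1 + Real.exp (w * t.re)) :=
      mul_pos (lt_min ha.sin_pos hb.sin_pos) (by positivity)
    linarith
  set c1 := min (Real.sin (w1 * a / 2)) (Real.sin (w1 * b / 2)) with hc1
  set c2 := min (Real.sin (w2 * a / 2)) (Real.sin (w2 * b / 2)) with hc2
  have hc1p : 0 < c1 := lt_min ha1.sin_pos hb1.sin_pos
  have hc2p : 0 < c2 := lt_min ha2.sin_pos hb2.sin_pos
  have hap := ha1.d_pos
  refine LT_shift (C := 1 / (c1 * c2) / a) hab ?_ ?_ h0 h3
  · intro t h1 h2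
    have ht : t ≠ 0 := by
      intro h; rw [h] at h1; simp at h1; linarith
    have n1 := hn w1 ha1 hb1 t h1 h2
    have n2 := hn w2 ha2 hb2 t h1 h2
    unfold p2
    refine DifferentiableAt.div (DifferentiableAt.div (by fun_prop) (by fun_prop) ?_)
      (by fun_prop) ht
    exact mul_ne_zero n1 n2
  · intro x hx1 hx2 τ
    have h4 := adm_p2_aux (w1 := w1) (w2 := w2) (δ := x) hc1p hc2p
      (norm_ge_unif ha1 hb1 hx1 hx2) (norm_ge_unif ha2 hb2 hx1 hx2) τ
    have h5 : a ≤ ‖hl x τ‖ := by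
      have := le_norm_hl x τ
      rw [abs_of_pos (by linarith)] at this
      linarith
    rw [norm_div]
    calc ‖p2 w1 w2 (hl x τ)‖ / ‖hl x τ‖
        ≤ (1 / (c1 * c2) / (1 + Real.exp ((w1 + w2) * τ))) / a := by gcongr
      _ = 1 / (c1 * c2) / a / (1 + Real.exp ((w1 + w2) * τ)) := by ring

/-- The two period transform does not depend on the height of the line. -/
theorem Phi_shift {w1 w2 a b : ℝ} (ha1 : Ok w1 a) (hb1 : Ok w1 b) (ha2 : Ok w2 a)
    (hb2 : Ok w2 b) {z : ℂ} (h0 : 0 < z.re) (h3 : z.re < w1 + w2) :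
    Phi w1 w2 a z = Phi w1 w2 b z := by
  rcases le_total a b with h | h
  · exact Phi_shift_aux ha1 hb1 ha2 hb2 h h0 h3
  · exact (Phi_shift_aux hb1 ha1 hb2 ha2 h h0 h3).symm

/-- Complex conjugation. -/
theorem conj_Phi (w1 w2 δ : ℝ) (z : ℂ) (h1 : Ok w1 δ) (h2 : Ok w2 δ) :
    (starRingEnd ℂ) (Phi w1 w2 δ z) = -Phi w1 w2 δ (w1 + w2 - (starRingEnd ℂ) z) := by
  unfold Phi LT
  rw [← integral_conj, ← integral_neg, ← integral_neg_eq_self]
  refine integral_congr_ae (Eventually.of_forall fun τ => ?_)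
  have e : (starRingEnd ℂ) (hl δ (-τ)) = -hl δ τ := by
    unfold hl
    simp
    ring
  have n1 := h1.ne τ
  have n2 := h2.ne τ
  have n3 := hl_ne h1.d_pos.ne' τ
  simp only
  unfold p2
  rw [map_mul, map_div₀, map_div₀, map_mul, map_sub, map_sub, map_one, ← Complex.exp_conj,
    ← Complex.exp_conj, ← Complex.exp_conj, map_mul, map_mul, map_mul, Complex.conj_ofReal,
    Complex.conj_ofReal, e]
  rw [mul_neg, mul_neg, mul_neg, Complex.exp_neg (w1 * hl δ τ), Complex.exp_neg (w2 * hl δ τ)]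
  rw [show (w1 + w2 - (starRingEnd ℂ) z) * hl δ τ =
    w1 * hl δ τ + (w2 * hl δ τ + -((starRingEnd ℂ) z * hl δ τ)) by ring, Complex.exp_add,
    Complex.exp_add]
  have m1 := Complex.exp_ne_zero (w1 * hl δ τ)
  have m2 := Complex.exp_ne_zero (w2 * hl δ τ)
  have m3 : (Complex.exp (w1 * hl δ τ))⁻¹ - 1 ≠ 0 := by
    intro h
    apply n1
    have : Complex.exp (w1 * hl δ τ) * ((Complex.exp (w1 * hl δ τ))⁻¹ - 1) = 0 := by rw [h]; simp
    rw [mul_sub, mul_inv_cancel₀ m1] at this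
    linear_combination -this
  have m4 : (Complex.exp (w2 * hl δ τ))⁻¹ - 1 ≠ 0 := by
    intro h
    apply n2
    have : Complex.exp (w2 * hl δ τ) * ((Complex.exp (w2 * hl δ τ))⁻¹ - 1) = 0 := by rw [h]; simp
    rw [mul_sub, mul_inv_cancel₀ m2] at this
    linear_combination -this
  have e5 : (Complex.exp (w1 * hl δ τ))⁻¹ - 1 =
      -(Complex.exp (w1 * hl δ τ) - 1) / Complex.exp (w1 * hl δ τ) := by field_simp; ring
  have e6 : (Complex.exp (w2 * hl δ τ))⁻¹ - 1 =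
      -(Complex.exp (w2 * hl δ τ) - 1) / Complex.exp (w2 * hl δ τ) := by field_simp; ring
  rw [e5, e6]
  field_simp

end Pool.Agent.F7
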